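import Pool.Agent.H87.CE.A7

set_option autoImplicit false

noncomputable section

namespace Pool.Agent.H87.CEx

open _root_.CE
open scoped Classical

theorem a10_FC : T_FC := by
  rintro F _ _ V _ _ _ D φ r hD ⟨Z0, p, hZ, hp, hind, hpair⟩
  have key : ∀ i, p i ∈ D ∧ φ (p i) = 1 := fun i => Finset.mem_filter.1 (hp i)
  refine ⟨Z0, Fin.cons 0 (fun i => p i), fun z hz => (Finset.mem_filter.1 (hZ hz)).1,
    ?_, ?_⟩
  · intro c hc hs
    rw [Fin.sum_univ_succ] at hc hs
    simp only [Fin.cons_zero, Fin.cons_succ, smul_zero, zero_add] at hs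
    have h1 := phi_span hZ hs
    rw [map_sum] at h1
    have h2 : ∑ i, c (Fin.succ i) = 0 := by
      rw [← h1]
      refine Finset.sum_congr rfl fun i _ => ?_
      rw [map_smul, (key i).2, smul_eq_mul, mul_one]
    have h3 := hind (fun i => c (Fin.succ i)) h2 hs
    rw [h2, add_zero] at hc
    funext i
    refine Fin.cases hc (fun i => ?_) i
    exact congrFun h3 i
  · intro i j hij
    induction i using Fin.cases with
    | zero =>
      induction j using Fin.cases with
      | zero => exact absurd rfl hij
      | succ j =>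
        refine ⟨-p j, neg_mem_cone hD (key j).1, ?_⟩
        simp
    | succ i =>
      induction j using Fin.cases with
      | zero =>
        refine ⟨p i, (key i).1, ?_⟩
        simp
      | succ j =>
        obtain ⟨d, hd, hd2⟩ := hpair i j (fun h => hij (by rw [h]))
        refine ⟨d, (Finset.mem_filter.1 hd).1, ?_⟩
        simpa using hd2

theorem a10_TR : T_TR := by
  rintro F _ _ V _ _ _ U D D' m hDD ⟨Z0, b, hZ, hind, hpair⟩
  have hspan : Submodule.span F ((Z0.image (Subtype.val : U → V) : Finset V) : Set V) =
      (Submodule.span F (Z0 : Set U)).map U.subtype := by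
    rw [Submodule.map_span]
    congr 1
    ext v
    simp
  have hmem : ∀ w : U, (w : V) ∈
      Submodule.span F ((Z0.image (Subtype.val : U → V) : Finset V) : Set V) →
      w ∈ Submodule.span F (Z0 : Set U) := by
    intro w hw
    rw [hspan, Submodule.mem_map] at hw
    obtain ⟨w', hw', h⟩ := hw
    have : w' = w := Subtype.ext h
    rwa [← this]
  have hmem2 : ∀ w : U, w ∈ Submodule.span F (Z0 : Set U) → (w : V) ∈
      Submodule.span F ((Z0.image (Subtype.val : U → V) : Finset V) : Set V) := by
    intro w hw
    rw [hspan, Submodule.mem_map]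
    exact ⟨w, hw, rfl⟩
  refine ⟨Z0.image (Subtype.val : U → V), fun i => (b i : V), ?_, ?_, ?_⟩
  · intro z hz
    rw [Finset.mem_image] at hz
    obtain ⟨u, hu, rfl⟩ := hz
    exact hDD u (hZ hu)
  · intro c hc hs
    refine hind c hc (hmem _ ?_)
    have : ((∑ i, c i • b i : U) : V) = ∑ i, c i • (b i : V) := by
      rw [Submodule.coe_sum]
      rfl
    rw [this]
    exact hs
  · intro i j hij
    obtain ⟨d, hd, hd2⟩ := hpair i j hij
    exact ⟨d, hDD d hd, hmem2 _ hd2⟩

theorem a10_CONE : T_CONE := by
  intro F _ _ V _ _ S h0 hs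
  constructor
  · constructor
    · intro h
      unfold cone at h
      rw [Finset.mem_image] at h
      obtain ⟨⟨c, v⟩, hp, he⟩ := h
      rw [Finset.mem_product, Finset.mem_filter] at hp
      rcases smul_eq_zero.1 he with h | h
      · exact hp.1.2 h
      · exact h0 v hp.2 h
    · intro c hc v hv
      unfold cone at hv ⊢
      rw [Finset.mem_image] at hv ⊢
      obtain ⟨⟨c', w⟩, hp, he⟩ := hv
      rw [Finset.mem_product, Finset.mem_filter] at hp
      refine ⟨(c * c', w), ?_, ?_⟩
      · rw [Finset.mem_product, Finset.mem_filter]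
        exact ⟨⟨Finset.mem_univ _, mul_ne_zero hc hp.1.2⟩, hp.2⟩
      · rw [← he]
        exact mul_smul _ _ _
  · unfold cone
    rw [Finset.card_image_of_injOn, Finset.card_product]
    · congr 1
      rw [Finset.filter_ne', Finset.card_erase_of_mem (Finset.mem_univ _), Finset.card_univ]
    · rintro ⟨c, v⟩ hp ⟨c', v'⟩ hp' he
      simp only [Finset.coe_product, Set.mem_prod, Finset.mem_coe, Finset.mem_filter,
        Finset.mem_univ, true_and] at hp hp'
      simp only at he
      have h1 : v = (c⁻¹ * c') • v' := by
        rw [mul_smul, ← he, ← mul_smul, inv_mul_cancel₀ hp.1, one_smul]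
      have h2 : v = v' := hs v hp.2 v' hp'.2 _ h1
      subst h2
      have h3 : c = c' := by
        have h4 : (c - c') • v = 0 := by rw [sub_smul, he, sub_self]
        rcases smul_eq_zero.1 h4 with h | h
        · exact sub_eq_zero.1 h
        · exact absurd h (h0 v hp.2)
      rw [h3]

end Pool.Agent.H87.CEx
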