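import Pool.Agent.H49.CE.Targets

set_option autoImplicit false

noncomputable section

namespace Pool.Agent.H87.CEx

open _root_.CE
open scoped Classical

variable {F : Type} [Field F] {V : Type} [AddCommGroup V] [Module F V]

/-- the size of a fibre -/
def tt (g : V) (C : Finset V) (l : V ⧸ Submodule.span F {g}) : ℕ :=
  (C.filter (fun x => (Submodule.span F {g}).mkQ x = l)).card

lemma tt_pos {g : V} {C : Finset V} {l : V ⧸ Submodule.span F {g}} (hl : l ∈ Cq F g C) :
    1 ≤ tt g C l := by
  unfold Cq at hl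
  rw [Finset.mem_image] at hl
  obtain ⟨x, hx, hxl⟩ := hl
  exact Finset.card_pos.2 ⟨x, Finset.mem_filter.2 ⟨hx, hxl⟩⟩

lemma card_span_singleton [Fintype F] [Finite V] {g : V} (hg : g ≠ 0) :
    Nat.card (Submodule.span F ({g} : Set V)) = Fintype.card F := by
  have h1 := Module.natCard_eq_pow_finrank (K := F) (V := Submodule.span F ({g} : Set V))
  rw [finrank_span_singleton hg, pow_one, Nat.card_eq_fintype_card (α := F)] at h1
  exact h1

lemma tt_le [Fintype F] [Finite V] {g : V} (hg : g ≠ 0) (C : Finset V)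
    (l : V ⧸ Submodule.span F {g}) : tt g C l ≤ Fintype.card F := by
  unfold tt
  rcases (C.filter (fun x => (Submodule.span F {g}).mkQ x = l)).eq_empty_or_nonempty with h | h
  · rw [h]; simp
  · obtain ⟨x0, hx0⟩ := h
    rw [Finset.mem_filter] at hx0
    have hfi : Fintype (Submodule.span F ({g} : Set V)) := Fintype.ofFinite _
    rw [← card_span_singleton (F := F) hg, Nat.card_eq_fintype_card, ← Finset.card_univ]
    have hmem : ∀ x ∈ C.filter (fun x => (Submodule.span F {g}).mkQ x = l),
        x - x0 ∈ Submodule.span F ({g} : Set V) := by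
      intro x hx
      rw [Finset.mem_filter] at hx
      exact (Submodule.Quotient.eq _).1 (hx.2.trans hx0.2.symm)
    refine Finset.card_le_card_of_injOn
      (fun x => if h : x - x0 ∈ Submodule.span F ({g} : Set V) then ⟨x - x0, h⟩ else 0)
      (fun _ _ => Finset.mem_coe.2 (Finset.mem_univ _)) ?_
    intro x hx y hy hxy
    simp only at hxy
    rw [dif_pos (hmem x hx), dif_pos (hmem y hy)] at hxy
    exact sub_left_injective (Subtype.ext_iff.1 hxy)

lemma sum_tt (g : V) (C : Finset V) :
    ∑ l ∈ Cq F g C, tt g C l = C.card := by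
  unfold tt Cq
  exact (Finset.card_eq_sum_card_image _ C).symm

lemma sum_tt_sub (g : V) (C : Finset V) :
    ∑ l ∈ Cq F g C, (tt g C l - 1) = C.card - (Cq F g C).card := by
  have h1 : ∑ l ∈ Cq F g C, (tt g C l - 1) + (Cq F g C).card = C.card := by
    rw [← sum_tt (F := F) g C, Finset.card_eq_sum_ones, ← Finset.sum_add_distrib]
    refine Finset.sum_congr rfl fun l hl => ?_
    have := tt_pos hl
    omega
  omega

lemma eg_eq (g : V) (C : Finset V) :
    Eg F g C = ∑ l ∈ Cq F g C, tt g C l * (tt g C l - 1) := by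
  unfold Eg
  have hmap : ∀ p ∈ (C ×ˢ C).filter (fun p => p.1 ≠ p.2 ∧ p.1 - p.2 ∈ Submodule.span F {g}),
      (Submodule.span F {g}).mkQ p.1 ∈ Cq F g C := by
    intro p hp
    rw [Finset.mem_filter, Finset.mem_product] at hp
    exact Finset.mem_image_of_mem _ hp.1.1
  rw [Finset.card_eq_sum_card_fiberwise hmap]
  refine Finset.sum_congr rfl fun l _ => ?_
  have h1 : ((C ×ˢ C).filter (fun p => p.1 ≠ p.2 ∧ p.1 - p.2 ∈ Submodule.span F {g})).filter
      (fun p => (Submodule.span F {g}).mkQ p.1 = l) =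
      (C.filter (fun x => (Submodule.span F {g}).mkQ x = l)).offDiag := by
    ext p
    simp only [Finset.mem_filter, Finset.mem_product, Finset.mem_offDiag]
    constructor
    · rintro ⟨⟨⟨h1, h2⟩, h3, h4⟩, h5⟩
      refine ⟨⟨h1, h5⟩, ⟨h2, ?_⟩, h3⟩
      rw [← h5]
      exact ((Submodule.Quotient.eq _).2 h4).symm
    · rintro ⟨⟨h1, h5⟩, ⟨h2, h6⟩, h3⟩
      refine ⟨⟨⟨h1, h2⟩, h3, ?_⟩, h5⟩
      exact (Submodule.Quotient.eq _).1 (h5.trans h6.symm)
  rw [h1, Finset.offDiag_card]
  unfold tt
  rw [Nat.mul_sub, mul_one]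

theorem a4 : T_EG := by
  intro F _ _ V _ _ _ C g hg
  constructor
  · rw [eg_eq, ← sum_tt_sub, Finset.mul_sum]
    exact Finset.sum_le_sum fun l _ => Nat.mul_le_mul_right _ (tt_le hg C l)
  · rw [← sum_tt_sub]
    unfold C2
    rw [Finset.card_filter]
    refine Finset.sum_le_sum fun l hl => ?_
    have h1 := tt_pos hl
    unfold tt at h1 ⊢
    split_ifs with h
    · omega
    · omega

end Pool.Agent.H87.CEx
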