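import Pool.Agent.H87.CE.A4

set_option autoImplicit false

noncomputable section

namespace Pool.Agent.H87.CEx

open _root_.CE
open scoped Classical

variable {F : Type} [Field F] {V : Type} [AddCommGroup V] [Module F V]

lemma w_eq [Fintype F] {D : Finset V} (hD : IsCone F D) (v : V) (hv : v ≠ 0) :
    (D.filter (fun g => v ∈ Submodule.span F {g})).card =
      if v ∈ D then Fintype.card F - 1 else 0 := by
  split_ifs with h
  · have h1 : D.filter (fun g => v ∈ Submodule.span F {g}) =
        ((Finset.univ : Finset F).erase 0).image (fun c => c • v) := by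
      ext g
      rw [Finset.mem_filter, Finset.mem_image]
      constructor
      · rintro ⟨hg, hvg⟩
        obtain ⟨a, ha⟩ := Submodule.mem_span_singleton.1 hvg
        have ha0 : a ≠ 0 := by
          rintro rfl
          rw [zero_smul] at ha
          exact hv ha.symm
        refine ⟨a⁻¹, Finset.mem_erase.2 ⟨inv_ne_zero ha0, Finset.mem_univ _⟩, ?_⟩
        rw [← ha, smul_smul, inv_mul_cancel₀ ha0, one_smul]
      · rintro ⟨c, hc, rfl⟩
        have hc0 : c ≠ 0 := (Finset.mem_erase.1 hc).1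
        refine ⟨hD.2 c hc0 v h, Submodule.mem_span_singleton.2 ⟨c⁻¹, ?_⟩⟩
        rw [smul_smul, inv_mul_cancel₀ hc0, one_smul]
    rw [h1, Finset.card_image_of_injective _ (smul_left_injective F hv),
      Finset.card_erase_of_mem (Finset.mem_univ _), Finset.card_univ]
  · rw [Finset.card_eq_zero, Finset.filter_eq_empty_iff]
    intro g hg hvg
    obtain ⟨a, ha⟩ := Submodule.mem_span_singleton.1 hvg
    have ha0 : a ≠ 0 := by
      rintro rfl
      rw [zero_smul] at ha
      exact hv ha.symm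
    exact h (ha ▸ hD.2 a ha0 g hg)

lemma sum_eg [Fintype F] {D : Finset V} (hD : IsCone F D) (C : Finset V) :
    ∑ g ∈ D, Eg F g C = (Fintype.card F - 1) * EE C D := by
  have h1 : ∀ g, Eg F g C = ∑ p ∈ C ×ˢ C,
      if p.1 ≠ p.2 ∧ p.1 - p.2 ∈ Submodule.span F {g} then 1 else 0 := fun g =>
    Finset.card_filter _ _
  simp_rw [h1]
  rw [Finset.sum_comm]
  unfold EE
  rw [Finset.card_filter, Finset.mul_sum]
  refine Finset.sum_congr rfl fun p _ => ?_
  by_cases hp : p.1 = p.2
  · have h0 : p.1 - p.2 ∉ D := by rw [hp, sub_self]; exact hD.1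
    rw [if_neg h0, mul_zero]
    refine Finset.sum_eq_zero fun g _ => ?_
    rw [if_neg]
    exact fun h => h.1 hp
  · have hw := w_eq hD (p.1 - p.2) (sub_ne_zero.2 hp)
    rw [Finset.card_filter] at hw
    have h2 : ∀ g ∈ D, (if p.1 ≠ p.2 ∧ p.1 - p.2 ∈ Submodule.span F {g} then 1 else 0 : ℕ) =
        if p.1 - p.2 ∈ Submodule.span F {g} then 1 else 0 := by
      intro g _
      simp only [ne_eq, hp, not_false_eq_true, true_and]
    rw [Finset.sum_congr rfl h2, hw]
    split_ifs <;> simp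

lemma ee_nbr {D : Finset V} (C : Finset V) :
    EE C D = ∑ y ∈ C, (nbr C D y).card := by
  unfold EE nbr
  rw [Finset.card_filter, Finset.sum_product_right]
  refine Finset.sum_congr rfl fun y _ => ?_
  rw [Finset.card_filter]

lemma sum_tri [Fintype F] {D : Finset V} (hD : IsCone F D) (C : Finset V) :
    ∑ g ∈ D, Tri F g C D = (Fintype.card F - 1) * ∑ y ∈ C, EE (nbr C D y) D := by
  have h1 : ∀ g, Tri F g C D = ∑ p ∈ C ×ˢ (C ×ˢ C),
      if p.1 ≠ p.2.1 ∧ p.1 - p.2.1 ∈ Submodule.span F {g} ∧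
        p.1 - p.2.2 ∈ D ∧ p.2.1 - p.2.2 ∈ D then 1 else 0 := fun g =>
    Finset.card_filter _ _
  simp_rw [h1]
  rw [Finset.sum_comm]
  have h3 : ∑ y ∈ C, EE (nbr C D y) D = ∑ p ∈ C ×ˢ (C ×ˢ C),
      if p.1 - p.2.1 ∈ D ∧ p.1 - p.2.2 ∈ D ∧ p.2.1 - p.2.2 ∈ D then 1 else 0 := by
    rw [Finset.sum_product]
    simp_rw [Finset.sum_product]
    have h4 : ∀ y ∈ C, EE (nbr C D y) D = ∑ x ∈ C, ∑ x' ∈ C,
        if x - x' ∈ D ∧ x - y ∈ D ∧ x' - y ∈ D then 1 else 0 := by
      intro y _
      unfold EE nbr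
      rw [Finset.card_filter, Finset.sum_product, Finset.sum_filter]
      refine Finset.sum_congr rfl fun x _ => ?_
      rw [Finset.sum_filter]
      split_ifs with hx
      · refine Finset.sum_congr rfl fun x' _ => ?_
        by_cases h5 : x' - y ∈ D <;> by_cases h6 : x - x' ∈ D <;> simp [h5, h6, hx]
      · symm
        refine Finset.sum_eq_zero fun x' _ => ?_
        rw [if_neg]
        exact fun h => hx h.2.1
    rw [Finset.sum_congr rfl h4, Finset.sum_comm]
    refine Finset.sum_congr rfl fun x _ => ?_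
    rw [Finset.sum_comm]
  rw [h3, Finset.mul_sum]
  refine Finset.sum_congr rfl fun p _ => ?_
  by_cases hp : p.1 = p.2.1
  · have h0 : p.1 - p.2.1 ∉ D := by rw [hp, sub_self]; exact hD.1
    rw [if_neg (fun h => h0 h.1), mul_zero]
    refine Finset.sum_eq_zero fun g _ => ?_
    rw [if_neg]
    exact fun h => h.1 hp
  · have hw := w_eq hD (p.1 - p.2.1) (sub_ne_zero.2 hp)
    rw [Finset.card_filter] at hw
    by_cases hc : p.1 - p.2.2 ∈ D ∧ p.2.1 - p.2.2 ∈ D
    · have h2 : ∀ g ∈ D, (if p.1 ≠ p.2.1 ∧ p.1 - p.2.1 ∈ Submodule.span F {g} ∧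
          p.1 - p.2.2 ∈ D ∧ p.2.1 - p.2.2 ∈ D then 1 else 0 : ℕ) =
          if p.1 - p.2.1 ∈ Submodule.span F {g} then 1 else 0 := by
        intro g _
        simp only [ne_eq, hp, not_false_eq_true, true_and, hc.1, hc.2, and_true]
      rw [Finset.sum_congr rfl h2, hw]
      by_cases h6 : p.1 - p.2.1 ∈ D
      · rw [if_pos h6, if_pos ⟨h6, hc⟩, mul_one]
      · rw [if_neg h6, if_neg (fun h => h6 h.1), mul_zero]
    · rw [if_neg (fun h => hc h.2), mul_zero]
      refine Finset.sum_eq_zero fun g _ => ?_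
      rw [if_neg]
      exact fun h => hc h.2.2

theorem a5 (hL : T_LOSS) (hE : T_EG) : T_DICH := by
  intro F _ _ V _ _ _ C D th hD hth hC hEE hcon
  by_contra hno
  push Not at hno
  obtain ⟨hP, hT⟩ := hno
  have hq1 : 1 < Fintype.card F := Fintype.one_lt_card
  -- the bound for differences
  have key0 : ∀ g ∈ D, (∃ x ∈ C, ∃ y ∈ C, x - y = g) →
      th * Eg F g C ≤ 2 * Fintype.card F * Tri F g C D := by
    intro g hg hxy
    have hg0 : g ≠ 0 := fun h => hD.1 (h ▸ hg)
    have h1 := hL F V C D g hD hg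
    have h2 := hcon g hg hxy
    obtain ⟨h3, h4⟩ := hE F V C g hg0
    have h5 : 4 * Fintype.card F ^ 2 * EE (C2 F g C) (Dq F g D) ≤ th * (C2 F g C).card := by
      rcases (C2 F g C).eq_empty_or_nonempty with he | hne
      · rw [he]; simp [EE]
      · exact (hP g hg hne).le
    have hcard : (Cq F g C).card ≤ C.card := Finset.card_image_le
    set c := C.card - (Cq F g C).card with hc
    have hcc : C.card = (Cq F g C).card + c := by omega
    set q := Fintype.card F
    have h6 : th * (C2 F g C).card ≤ th * c := Nat.mul_le_mul_left _ h4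
    have h7 : 4 * q * c ≤ th * c := Nat.mul_le_mul_right _ hth
    have h8 : th * C.card = th * (Cq F g C).card + th * c := by rw [hcc]; ring
    have h9 : th * c ≤ 2 * Tri F g C D := by nlinarith
    calc th * Eg F g C ≤ th * (q * c) := Nat.mul_le_mul_left _ h3
      _ = q * (th * c) := by ring
      _ ≤ q * (2 * Tri F g C D) := Nat.mul_le_mul_left _ h9
      _ = 2 * q * Tri F g C D := by ring
  have hspan : ∀ (g : V) (a : F), a ≠ 0 →
      Submodule.span F ({a • g} : Set V) = Submodule.span F {g} := fun g a ha =>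
    Submodule.span_singleton_smul_eq (IsUnit.mk0 a ha) g
  have key : ∀ g ∈ D, th * Eg F g C ≤ 2 * Fintype.card F * Tri F g C D := by
    intro g hg
    rcases Nat.eq_zero_or_pos (Eg F g C) with h0 | h0
    · rw [h0]; simp
    · obtain ⟨p, hp⟩ := Finset.card_pos.1 h0
      rw [Finset.mem_filter, Finset.mem_product] at hp
      obtain ⟨⟨h1, h2⟩, h3, h4⟩ := hp
      obtain ⟨a, ha⟩ := Submodule.mem_span_singleton.1 h4
      have ha0 : a ≠ 0 := by
        rintro rfl
        rw [zero_smul] at ha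
        exact h3 (sub_eq_zero.1 ha.symm)
      have h5 := key0 (a • g) (hD.2 a ha0 g hg) ⟨p.1, h1, p.2, h2, ha.symm⟩
      unfold Eg Tri at h5 ⊢
      rw [hspan g a ha0] at h5
      exact h5
  have hsum : th * EE C D ≤ 2 * Fintype.card F * ∑ y ∈ C, EE (nbr C D y) D := by
    have h1 : ∑ g ∈ D, th * Eg F g C ≤ ∑ g ∈ D, 2 * Fintype.card F * Tri F g C D :=
      Finset.sum_le_sum key
    rw [← Finset.mul_sum, ← Finset.mul_sum, sum_eg hD, sum_tri hD] at h1
    have h2 : (Fintype.card F - 1) * (th * EE C D) ≤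
        (Fintype.card F - 1) * (2 * Fintype.card F * ∑ y ∈ C, EE (nbr C D y) D) := by
      calc (Fintype.card F - 1) * (th * EE C D) = th * ((Fintype.card F - 1) * EE C D) := by ring
        _ ≤ _ := h1
        _ = _ := by ring
    exact Nat.le_of_mul_le_mul_left h2 (by omega)
  have hpos : 0 < EE C D := by
    have h1 : 0 < C.card := Finset.card_pos.2 hC
    have h2 : 0 < th * C.card := Nat.mul_pos (by omega) h1
    omega
  rw [ee_nbr, Finset.mul_sum, Finset.mul_sum] at hsum
  have hlt : ∑ y ∈ C, 2 * Fintype.card F * EE (nbr C D y) D <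
      ∑ y ∈ C, th * (nbr C D y).card := by
    refine Finset.sum_lt_sum ?_ ?_
    · intro y hy
      rcases (nbr C D y).eq_empty_or_nonempty with he | hne
      · rw [he]; simp [EE]
      · exact (hT y hy hne).le
    · rw [ee_nbr] at hpos
      obtain ⟨y, hy, hy2⟩ := Finset.exists_ne_zero_of_sum_ne_zero hpos.ne'
      exact ⟨y, hy, hT y hy (Finset.card_pos.1 (Nat.pos_of_ne_zero hy2))⟩
  omega

end Pool.Agent.H87.CEx
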