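import Pool.Agent.H49.CE.Targets

set_option autoImplicit false

noncomputable section

namespace Pool.Agent.H87.CEx

open _root_.CE
open scoped Classical

variable {F : Type} [Field F] {V : Type} [AddCommGroup V] [Module F V]

lemma phi_span {φ : V →ₗ[F] F} {D Z0 : Finset V} (hZ : Z0 ⊆ D.filter (fun x => φ x = 0)) {w : V}
    (hw : w ∈ Submodule.span F (Z0 : Set V)) : φ w = 0 := by
  have h1 : Submodule.span F (Z0 : Set V) ≤ LinearMap.ker φ := by
    rw [Submodule.span_le]
    intro z hz
    have := hZ (Finset.mem_coe.1 hz)
    rw [Finset.mem_filter] at this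
    exact this.2
  exact h1 hw

lemma neg_mem_cone {D : Finset V} (hD : IsCone F D) {v : V} (hv : v ∈ D) : -v ∈ D := by
  have := hD.2 (-1) (neg_ne_zero.2 one_ne_zero) v hv
  simpa using this

theorem a7 : T_HUB := by
  intro F _ _ V _ _ _ C D y φ hD hy
  have key : ∀ w ∈ ((nbr C D y).image (fun x => x - y)).filter (fun x => φ x = 1),
      y + w ∈ C ∧ w ∈ D ∧ φ w = 1 := by
    intro w hw
    rw [Finset.mem_filter, Finset.mem_image] at hw
    obtain ⟨⟨x, hx, rfl⟩, hφ⟩ := hw
    unfold nbr at hx
    rw [Finset.mem_filter] at hx
    refine ⟨?_, hx.2, hφ⟩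
    rw [add_sub_cancel]
    exact hx.1
  constructor
  · rintro r ⟨Z0, p, hZ, hp, hind, hpair⟩
    refine ⟨Z0, Fin.cons y (fun i => y + p i), fun z hz => (Finset.mem_filter.1 (hZ hz)).1,
      ?_, ?_, ?_⟩
    · intro i
      refine Fin.cases ?_ (fun i => ?_) i
      · simpa using hy
      · simpa using (key _ (hp i)).1
    · intro c hc hs
      rw [Fin.sum_univ_succ] at hc hs
      simp only [Fin.cons_zero, Fin.cons_succ, smul_add, Finset.sum_add_distrib] at hs
      rw [← add_assoc, ← Finset.sum_smul, ← add_smul, hc, zero_smul, zero_add] at hs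
      have h1 := phi_span hZ hs
      rw [map_sum] at h1
      have h2 : ∑ i, c (Fin.succ i) = 0 := by
        rw [← h1]
        refine Finset.sum_congr rfl fun i _ => ?_
        rw [map_smul, (key _ (hp i)).2.2, smul_eq_mul, mul_one]
      have h3 := hind (fun i => c (Fin.succ i)) h2 hs
      rw [h2, add_zero] at hc
      funext i
      refine Fin.cases hc (fun i => ?_) i
      exact congrFun h3 i
    · intro i j hij
      induction i using Fin.cases with
      | zero =>
        induction j using Fin.cases with
        | zero => exact absurd rfl hij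
        | succ j =>
          refine ⟨-p j, neg_mem_cone hD (key _ (hp j)).2.1, ?_⟩
          simp
      | succ i =>
        induction j using Fin.cases with
        | zero =>
          refine ⟨p i, (key _ (hp i)).2.1, ?_⟩
          simp
        | succ j =>
          obtain ⟨d, hd, hd2⟩ := hpair i j (fun h => hij (by rw [h]))
          refine ⟨d, (Finset.mem_filter.1 hd).1, ?_⟩
          simpa using hd2
  · rintro a n ⟨Z0, G, p, x, hZ, hZG, hG, hp, hx, hxG, hind, hinj⟩
    refine ⟨Z0, G, fun j => y + p j, fun j i => y + x j i,
      fun z hz => (Finset.mem_filter.1 (hZ hz)).1, hZG, hG, fun j => (key _ (hp j)).1,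
      fun j i => (key _ (hx j i)).1, ?_, ?_, ?_⟩
    · intro j i
      simpa using hxG j i
    · intro j c hc
      refine hind j c ?_
      simpa using hc
    · intro j j' h
      refine hinj j j' ?_
      simpa using h

end Pool.Agent.H87.CEx
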